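import Mathlib
import Pool.Agent.H58P.PropP

set_option autoImplicit false

/-!
# A field with property (P) and without property (USB)

Fields are subfields of `AlgebraicClosure ℚ`, which are the intermediate fields of
`AlgebraicClosure ℚ` over `ℚ`.
-/

namespace Pool.Agent.Results.MP_8d2e9f_nt.PNotUSB

open Polynomial OnePoint
open Pool.Agent.H58P (Qb ht Tower)

/-- the absolute logarithmic Weil height on the projective line over the algebraic numbers:
it is `0` at infinity and Mathlib's `NumberField.absLogHeight₁` elsewhere -/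
noncomputable def weilHeight (z : OnePoint (AlgebraicClosure ℚ)) : ℝ :=
  z.elim 0 fun x => NumberField.absLogHeight₁ x

/-- the degree of a rational function -/
noncomputable def degree (f : RatFunc (AlgebraicClosure ℚ)) : ℕ :=
  max f.num.natDegree f.denom.natDegree

open Classical in
/-- the self-map of the projective line defined by a rational function -/
noncomputable def ratMap (f : RatFunc (AlgebraicClosure ℚ)) (z : OnePoint (AlgebraicClosure ℚ)) :
    OnePoint (AlgebraicClosure ℚ) :=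
  z.elim
    (if f.denom.coeff (degree f) = 0 then ∞
      else ((f.num.coeff (degree f) / f.denom.coeff (degree f) : AlgebraicClosure ℚ) :
        OnePoint (AlgebraicClosure ℚ)))
    fun x => if f.denom.eval x = 0 then ∞
      else ((f.num.eval x / f.denom.eval x : AlgebraicClosure ℚ) : OnePoint (AlgebraicClosure ℚ))

/-- `H` is the canonical height of `f` -/
def IsCanonicalHeight (f : RatFunc (AlgebraicClosure ℚ))
    (H : OnePoint (AlgebraicClosure ℚ) → ℝ) : Prop :=
  (∀ z, H (ratMap f z) = degree f * H z) ∧ ∃ C : ℝ, ∀ z, |H z - weilHeight z| ≤ C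

/-- the preperiodic points: the forward orbit is finite -/
def PrePer (f : RatFunc (AlgebraicClosure ℚ)) : Set (OnePoint (AlgebraicClosure ℚ)) :=
  {z | (Set.range fun n : ℕ => (ratMap f)^[n] z).Finite}

/-- the points of the projective line over `F` -/
def P1 (F : IntermediateField ℚ (AlgebraicClosure ℚ)) : Set (OnePoint (AlgebraicClosure ℚ)) :=
  {z | z = ∞ ∨ ∃ x ∈ F, z = (x : OnePoint (AlgebraicClosure ℚ))}

/-- the strong Bogomolov property relative to the canonical height `H` of `f` -/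
def SB (F : IntermediateField ℚ (AlgebraicClosure ℚ)) (f : RatFunc (AlgebraicClosure ℚ))
    (H : OnePoint (AlgebraicClosure ℚ) → ℝ) : Prop :=
  (∃ c : ℝ, 0 < c ∧ ∀ z ∈ P1 F, z ∉ PrePer f → c ≤ H z) ∧ (P1 F ∩ PrePer f).Finite

/-- property (USB) -/
def USB (F : IntermediateField ℚ (AlgebraicClosure ℚ)) : Prop :=
  ∀ f : RatFunc (AlgebraicClosure ℚ), 2 ≤ degree f →
    ∀ H : OnePoint (AlgebraicClosure ℚ) → ℝ, IsCanonicalHeight f H → SB F f H

/-- property (P) -/
def PropP (F : IntermediateField ℚ (AlgebraicClosure ℚ)) : Prop :=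
  ∀ f : Polynomial F, 0 < f.natDegree →
    (∃ X : Set F, X.Infinite ∧ (fun x => f.eval x) '' X = X) → f.natDegree = 1

/-- the canonical height is unique -/
lemma canonicalHeight_unique (f : RatFunc (AlgebraicClosure ℚ)) (hf : 2 ≤ degree f)
    (H H' : OnePoint (AlgebraicClosure ℚ) → ℝ) (h : IsCanonicalHeight f H)
    (h' : IsCanonicalHeight f H') : H = H' := by
  obtain ⟨h1, C, hC⟩ := h
  obtain ⟨h1', C', hC'⟩ := h'
  have hbd : ∀ z, |H z - H' z| ≤ C + C' := by
    intro z
    have e : H z - H' z = (H z - weilHeight z) - (H' z - weilHeight z) := by ring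
    rw [e]
    exact (abs_sub _ _).trans (add_le_add (hC z) (hC' z))
  have hit : ∀ (n : ℕ) z, H ((ratMap f)^[n] z) - H' ((ratMap f)^[n] z) =
      (degree f : ℝ) ^ n * (H z - H' z) := by
    intro n
    induction n with
    | zero => intro z; simp
    | succ n ih =>
      intro z
      rw [Function.iterate_succ_apply, ih, h1, h1', pow_succ]
      ring
  funext z
  by_contra hne
  have hpos : 0 < |H z - H' z| := abs_pos.mpr (sub_ne_zero.mpr hne)
  obtain ⟨n, hn⟩ := pow_unbounded_of_one_lt ((C + C') / |H z - H' z|) (show (1 : ℝ) < 2 by norm_num)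
  have h2 := hbd ((ratMap f)^[n] z)
  rw [hit, abs_mul, abs_of_nonneg (by positivity : (0 : ℝ) ≤ (degree f : ℝ) ^ n)] at h2
  rw [div_lt_iff₀ hpos] at hn
  have h3 : (2 : ℝ) ^ n ≤ (degree f : ℝ) ^ n :=
    pow_le_pow_left₀ (by norm_num) (by exact_mod_cast hf) n
  have h4 := mul_le_mul_of_nonneg_right h3 hpos.le
  linarith

/-- the squaring map -/
noncomputable def sq : RatFunc (AlgebraicClosure ℚ) :=
  algebraMap (Polynomial (AlgebraicClosure ℚ)) (RatFunc (AlgebraicClosure ℚ)) (X ^ 2)

lemma num_sq : sq.num = X ^ 2 := RatFunc.num_algebraMap _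

lemma denom_sq : sq.denom = 1 := RatFunc.denom_algebraMap _

lemma degree_sq : degree sq = 2 := by
  rw [degree, num_sq, denom_sq, natDegree_X_pow, natDegree_one]
  rfl

lemma ratMap_sq_infty : ratMap sq ∞ = ∞ := by
  unfold ratMap
  rw [OnePoint.elim_infty, degree_sq, denom_sq, if_pos]
  rw [coeff_one, if_neg (by norm_num)]

lemma ratMap_sq_coe (x : AlgebraicClosure ℚ) :
    ratMap sq (x : OnePoint (AlgebraicClosure ℚ)) = ((x ^ 2 : AlgebraicClosure ℚ) :
      OnePoint (AlgebraicClosure ℚ)) := by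
  unfold ratMap
  rw [OnePoint.elim_some, denom_sq, num_sq, eval_one, if_neg one_ne_zero, eval_pow, eval_X, div_one]

lemma ht_pow (x : Qb) (n : ℕ) : ht (x ^ n) = n * ht x := by
  have h1 := Pool.Agent.H58W.absLogHeight_pow ![1, x] n
  have e : (fun i => (![1, x] : Fin 2 → Qb) i ^ n) = ![1, x ^ n] := by
    funext i
    fin_cases i <;> simp
  rw [e] at h1
  exact h1

lemma isCanonicalHeight_sq : IsCanonicalHeight sq weilHeight := by
  refine ⟨fun z => ?_, 0, fun z => by simp⟩
  induction z using OnePoint.rec with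
  | infty =>
    rw [ratMap_sq_infty]
    simp [weilHeight]
  | coe x =>
    rw [ratMap_sq_coe, degree_sq]
    show NumberField.absLogHeight₁ (x ^ 2) = (2 : ℕ) * NumberField.absLogHeight₁ x
    rw [Pool.Agent.H58P.absLogHeight₁_eq, Pool.Agent.H58P.absLogHeight₁_eq, ht_pow]

lemma ht_natCast (n : ℕ) (hn : 0 < n) : ht (n : Qb) ≤ Real.log n := by
  have h1 := Pool.Agent.Helper259.AbsHt.absLogHeight_int ![(1 : ℤ), (n : ℤ)] (by
    have : Finset.univ.gcd ![(1 : ℤ), (n : ℤ)] ∣ 1 := by
      have := Finset.gcd_dvd (f := ![(1 : ℤ), (n : ℤ)]) (Finset.mem_univ (0 : Fin 2))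
      simpa using this
    have h2 : normalize (Finset.univ.gcd ![(1 : ℤ), (n : ℤ)]) = Finset.univ.gcd ![(1 : ℤ), (n : ℤ)] :=
      Finset.normalize_gcd
    rw [← h2, normalize_eq_one]
    exact isUnit_of_dvd_one this)
  have e : (fun i => ((![(1 : ℤ), (n : ℤ)] i : ℤ) : Qb)) = ![1, (n : Qb)] := by
    funext i
    fin_cases i <;> simp
  rw [e] at h1
  have h2 : (⨆ i, |(![(1 : ℤ), (n : ℤ)] : Fin 2 → ℤ) i|) ≤ (n : ℤ) := by
    apply ciSup_le
    intro i
    fin_cases i
    · have : (1 : ℤ) ≤ (n : ℤ) := by exact_mod_cast hn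
      simpa using this
    · simp
  have h3 : (1 : ℤ) ≤ ⨆ i, |(![(1 : ℤ), (n : ℤ)] : Fin 2 → ℤ) i| := by
    have := le_ciSup (f := fun i => |(![(1 : ℤ), (n : ℤ)] : Fin 2 → ℤ) i|)
      (Set.finite_range _).bddAbove 0
    simpa using this
  show Pool.Agent.Helper259.AbsHt.absLogHeight ![1, (n : Qb)] ≤ _
  rw [h1]
  apply Real.log_le_log
  · exact_mod_cast h3
  · exact_mod_cast h2

lemma not_usb (T : Tower) : ¬ USB T.F := by
  intro h
  obtain ⟨⟨c, hc, hbound⟩, -⟩ := h sq degree_sq.ge weilHeight isCanonicalHeight_sq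
  obtain ⟨i, hi⟩ := exists_nat_one_div_lt hc
  have hp0 : (0 : ℝ) < T.p i := by exact_mod_cast (T.hp i).pos
  have hmem : T.α i ∈ T.F := (T.mem_F _).mpr ⟨i + 1, T.α_mem i⟩
  have hht : weilHeight (T.α i : OnePoint (AlgebraicClosure ℚ)) ≤ 1 / ((i : ℝ) + 1) := by
    show NumberField.absLogHeight₁ (T.α i) ≤ _
    rw [Pool.Agent.H58P.absLogHeight₁_eq]
    refine le_trans ?_ (T.small i)
    rw [le_div_iff₀ hp0, mul_comm, ← ht_pow, T.hα]
    exact ht_natCast _ (T.ha i).pos
  have hnp : (T.α i : OnePoint (AlgebraicClosure ℚ)) ∉ PrePer sq := by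
    intro hfin
    have hit : ∀ (n : ℕ) (x : AlgebraicClosure ℚ),
        (ratMap sq)^[n] (x : OnePoint (AlgebraicClosure ℚ)) =
          ((x ^ 2 ^ n : AlgebraicClosure ℚ) : OnePoint (AlgebraicClosure ℚ)) := by
      intro n
      induction n with
      | zero => intro x; simp
      | succ n ih =>
        intro x
        rw [Function.iterate_succ_apply, ratMap_sq_coe, ih, ← pow_mul, ← pow_succ']
    have hinj : Function.Injective
        fun n : ℕ => (ratMap sq)^[n] (T.α i : OnePoint (AlgebraicClosure ℚ)) := by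
      intro n k hnk
      have h1 : (ratMap sq)^[n] (T.α i : OnePoint (AlgebraicClosure ℚ)) =
        (ratMap sq)^[k] (T.α i : OnePoint (AlgebraicClosure ℚ)) := hnk
      rw [hit, hit, OnePoint.coe_eq_coe] at h1
      have h2 := congrArg (fun y => y ^ (T.p i)) h1
      simp only [← pow_mul] at h2
      rw [mul_comm, pow_mul, mul_comm (2 ^ k), pow_mul, T.hα] at h2
      have h3 : (T.a i) ^ 2 ^ n = (T.a i) ^ 2 ^ k := by exact_mod_cast h2
      have h4 := Nat.pow_right_injective (T.ha i).two_le h3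
      exact Nat.pow_right_injective le_rfl h4
    exact Set.infinite_range_of_injective hinj hfin
  have h2 := hbound _ (Or.inr ⟨_, hmem, rfl⟩) hnp
  linarith

lemma propP (T : Tower) : PropP T.F := by
  intro f hf hX
  obtain ⟨X, hXinf, hXf⟩ := hX
  by_contra hne
  have hdeg : 2 ≤ f.natDegree := by omega
  have hinj : Function.Injective (algebraMap T.F (AlgebraicClosure ℚ)) :=
    (algebraMap T.F (AlgebraicClosure ℚ)).injective
  have hfin := T.finite_of_subset_image (f.map (algebraMap T.F (AlgebraicClosure ℚ)))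
    (by rw [natDegree_map]; exact hdeg)
    (fun i => by rw [coeff_map]; exact (f.coeff i).2)
    (algebraMap T.F (AlgebraicClosure ℚ) '' X) (by
      rintro _ ⟨x, _, rfl⟩
      exact x.2) (by
      rintro _ ⟨x, hx, rfl⟩
      rw [← hXf] at hx
      obtain ⟨y, hy, rfl⟩ := hx
      refine ⟨_, ⟨y, hy, rfl⟩, ?_⟩
      rw [eval_map, eval₂_at_apply])
  exact hXinf (hfin.of_finite_image hinj.injOn)

/-- **Answer to Q2.** Some subfield of the algebraic numbers has property (P) and not (USB). -/
theorem result : ∃ F : IntermediateField ℚ (AlgebraicClosure ℚ), PropP F ∧ ¬ USB F := by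
  obtain ⟨T⟩ := Pool.Agent.H58P.nonempty_tower
  exact ⟨T.F, propP T, not_usb T⟩

end Pool.Agent.Results.MP_8d2e9f_nt.PNotUSB
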